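import Pool.Agent.W689.Ch.Main

/-!
# Closed affine manifolds whose holonomy preserves a star-shaped set

Chern's conjecture says that closed affine manifolds have Euler characteristic zero. By the
theorem of Poincare and Hopf it is enough to find a continuous vector field without zeros. We
prove that a closed affine manifold whose holonomy group preserves a proper nonempty star-shaped
subset of affine space has such a field, except possibly if all centres of the set lie in a
proper invariant affine subspace `H` and the closed affine manifold of lower dimension that is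
developed into `H` has none itself.
-/

set_option autoImplicit false

open Set Topology

namespace Pool.Agent.Results.MP_1fa9a4_gt.InvariantStarShapedSet

/-- A closed affine manifold `Γ \ X` modelled on the vector space `E`: the group `Γ` acts on the
Hausdorff space `X` properly discontinuously and with compact quotient, and the developing map
`dev` is a local homeomorphism to `E` that is equivariant with respect to the affine holonomy
`hol`. -/
structure ClosedAffine (X Γ E : Type) [TopologicalSpace X] [Group Γ] [MulAction Γ X]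
    [NormedAddCommGroup E] [NormedSpace ℝ E] (dev : X → E) (hol : Γ →* (E ≃ᵃ[ℝ] E)) : Prop where
  /-- the developing map is a local homeomorphism -/
  loc : IsLocalHomeomorph dev
  /-- the group acts by homeomorphisms -/
  cont : ∀ γ : Γ, Continuous fun x : X => γ • x
  /-- the developing map is equivariant -/
  equi : ∀ (γ : Γ) (x : X), dev (γ • x) = hol γ (dev x)
  /-- the action is properly discontinuous -/
  pd : ∀ K : Set X, IsCompact K → {γ : Γ | ∃ x ∈ K, γ • x ∈ K}.Finite
  /-- the quotient is compact -/
  cc : ∃ K : Set X, IsCompact K ∧ ∀ x : X, ∃ γ : Γ, ∃ k ∈ K, γ • k = x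

variable {X Γ E : Type} [TopologicalSpace X] [Group Γ] [MulAction Γ X] [NormedAddCommGroup E]
  [NormedSpace ℝ E]

/-- The affine manifold `Γ \ dev⁻¹(H)` has a continuous vector field without zeros, tangent to
`H`. For `H = ⊤` this is a vector field without zeros on the whole manifold `Γ \ X`. -/
def HasField (dev : X → E) (hol : Γ →* (E ≃ᵃ[ℝ] E)) (H : AffineSubspace ℝ E) : Prop :=
  ∃ Z : X → E, ContinuousOn Z {x | dev x ∈ H} ∧
    (∀ x, dev x ∈ H → Z x ∈ H.direction ∧ Z x ≠ 0) ∧
    ∀ (γ : Γ) (x : X), dev x ∈ H → Z (γ • x) = (hol γ).linear (Z x)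

/-- **Theorem.** Let `Γ \ X` be a closed affine manifold whose holonomy preserves a star-shaped
set `S`, nonempty and not the whole space. If there is no vector field without zeros, then `S`
does not contain the developing image, some centre of `S` is in the developing image, and there is
a proper affine subspace `H`, invariant under the holonomy and containing all centres of `S`, such
that the closed affine manifold `Γ \ dev⁻¹(H)` has no tangent vector field without zeros. -/
theorem result [T2Space X] [FiniteDimensional ℝ E] {dev : X → E} {hol : Γ →* (E ≃ᵃ[ℝ] E)}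
    (D : ClosedAffine X Γ E dev hol) {S : Set E} {p : E} (hp : p ∈ S) (hs : StarConvex ℝ p S)
    (hne : S ≠ univ) (hinv : ∀ (γ : Γ), ∀ q ∈ S, hol γ q ∈ S) :
    HasField dev hol ⊤ ∨
      (¬ range dev ⊆ S ∧ (∃ x, dev x ∈ S ∧ StarConvex ℝ (dev x) S) ∧
        ∃ H : AffineSubspace ℝ E, H ≠ ⊤ ∧ (∀ (γ : Γ), ∀ q ∈ H, hol γ q ∈ H) ∧
          (∀ q ∈ S, StarConvex ℝ q S → q ∈ H) ∧ ¬ HasField dev hol H) := by
  have D' : Pool.Agent.W689.Ch.AffMfd X Γ E dev hol := ⟨D.loc, D.cont, D.equi, D.pd, D.cc⟩
  by_cases hf : ∃ Z : X → E, Continuous Z ∧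
      (∀ (γ : Γ) x, Z (γ • x) = Pool.Agent.W689.Mk.lin hol γ (Z x)) ∧ ∀ x, Z x ≠ 0
  · left
    obtain ⟨Z, h1, h2, h3⟩ := hf
    refine ⟨Z, h1.continuousOn, fun x _ => ⟨?_, h3 x⟩, fun γ x _ => h2 γ x⟩
    rw [AffineSubspace.direction_top]
    exact Submodule.mem_top
  · right
    rcases isEmpty_or_nonempty X with hX | hX
    · exact absurd ⟨fun _ => 0, continuous_const, fun _ x => (hX.false x).elim,
        fun x => (hX.false x).elim⟩ hf
    obtain ⟨h1, ⟨x, hx⟩, h2, h3, h4⟩ := Pool.Agent.W689.Ch.main D' hp hs hne hinv hf
    refine ⟨h1, ⟨x, hx.1, hx.2⟩, affineSpan ℝ (Pool.Agent.W689.Ch.Ker S), h2, h3,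
      fun q hq hqs => subset_affineSpan ℝ _ (show q ∈ Pool.Agent.W689.Ch.Ker S from ⟨hq, hqs⟩),
      fun ⟨Z, h5, h6, h7⟩ => h4 ⟨Z, h5, h6, h7⟩⟩

end Pool.Agent.Results.MP_1fa9a4_gt.InvariantStarShapedSet
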